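import Pool.Agent.Q274.XF.Form

/-!
# The order of vanishing formula for the twists of `X_0(14)` over every multiquadratic field of a class

`E_D : y² = x³ + 5805 D² x - 285714 D³` is the twist by `D` of the non-CM curve `E_1 = X_0(14)`. The
class `Adm` consists of the discriminants `D` of any sign which are squarefree, `≡ 1 mod 4`, prime to
`42`, squares modulo `7`, and whose prime factors split completely in `ℚ(i, √2, √-7)` or are inert in
`ℚ(√2)` and in `ℚ(√-7)`; `D` is good if moreover `E_D(ℚ)` is finite and `Ш(E_D/ℚ)[2] = 0`. A pair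
`(M, d)` is good if `K = ℚ(√d_1, …, √d_n)` has degree `2ⁿ` and all the numbers `M ∏_{i ∈ T} d_i` are
good up to squares. For the Chow motive `h¹(E_M)(1)` over `K` we have `L(s, h¹(E_M)(1)) = L(E_M/K, s + 1)`
and the `2`-adic realization is `V_2 E_M`.

* For each good pair the order of vanishing formula of Bloch and Kato (whose parity is the statement of
  the problem) holds for `p = 2`, the motive `h¹(E_M)(1)` and the field `K` (which is totally real for
  `M, d_i > 0`): `L(E_M/K, s)` is entire and not zero at `1`, `H⁰(K, V_2 E_M) = 0` and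
  `H¹_f(K, V_2 E_M) = 0`. (The `L`-function is taken without the Euler factors above `42 M d_1 ⋯ d_n`.)
* For every field `K` of the class and every `M` in it, this is so for at least the proportion
  `c ^ (2 ^ n)` of the twists `E_{M D}` of `E_M`, `D > 0` (or `D < 0`) in the class, with
  `c = ∏ (1 - 2 ^ (-2 i - 1)) = 0.419…`.
* If `(M, d)` is good then `(M, (d, D))` is good for exactly the proportion `c ^ (2 ^ n)` of the `D`; so
  the formula holds for one and the same motive `h¹(E_1)(1)` over fields of every degree `2ⁿ`, and one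
  passes from each of these fields to the next one with a quadratic extension out of a set of positive
  proportion.

`H1f 2 W` (`Pool.Agent.Y667.BKP.H1f`, by helper667) is the group of the classes of the continuous
cocycles of the absolute Galois group with values in `V_2 W = T_2 W ⊗ ℚ_2` whose restriction to the
completion at every place is in the image of the Kummer map; this is the condition of Bloch and Kato.

The arithmetic input (analytic continuation and `L(E_M/K, 1) ≠ 0`, finiteness of `E_M(K)`, the bound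
for `Ш(E_M/K)[2^∞]`, and the counting theorem) is the library `Pool/Agent/Y687` of the starting files,
see `Pool/Agent/Q274/XF/Parts.lean`.
-/

set_option autoImplicit false

open NumberField Filter Topology

namespace Pool.Agent.Results.MP_d4aa36_nt.ExactProportionMultiquadratic

open Pool.Agent.Q274.XF
open Pool.Agent.TH841.SH.D (Gal act)
open Pool.Agent.Y667.BKP (PSeq IsV H1f)

/-- `H⁰(K, V_2 W) = 0`: the elements of `V_2 W` that are fixed by the Galois group are zero. -/
def NoInvariants {K : Type} [Field K] (W : WeierstrassCurve K) : Prop :=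
  ∀ x : PSeq W, IsV 2 W x → (∀ (σ : Gal K) (n : ℕ), act W σ.toAlgHom (x n) = x n) → ∀ n, x n = 0

/-- The order of vanishing formula for `h¹(E_M)(1)` over `K` and `p = 2`, with rank zero: `E_M` is an
elliptic curve, its `L`-function (without the Euler factors above `42 M m`) extends to an entire
function that is not zero at `1`, and `H⁰(K, V_2 E_M)` and `H¹_f(K, V_2 E_M)` are zero. -/
def Formula (K : Type) [Field K] [NumberField K] (M m : ℤ) : Prop :=
  (EK K M).IsElliptic ∧ (∃ F : ℂ → ℂ, IsL K M m F) ∧ (∀ F : ℂ → ℂ, IsL K M m F → F 1 ≠ 0) ∧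
    NoInvariants (EK K M) ∧ ∀ x : H1f 2 (EK K M), x = 0

lemma formula_of {n : ℕ} {M : ℤ} {d : Fin n → ℤ} (h : GoodPair M d) {K : Type} [Field K]
    [NumberField K] (hK : IsMultiquadratic d K) :
    Module.finrank ℚ K = 2 ^ n ∧ Formula K M (∏ i, d i) := by
  obtain ⟨a1, -, a2, a3, a4, a5⟩ := parts.1 n M d h K hK
  exact ⟨a1, isElliptic (ne_zero h), a4, a5, h0_zero Nat.prime_two a3,
    Pool.Agent.Y667.BKP.h1f_zero Nat.prime_two a3 n a2⟩

/-- **The order of vanishing formula over the multiquadratic fields of the class.** -/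
theorem result :
    (∀ (n : ℕ) (M : ℤ) (d : Fin n → ℤ), GoodPair M d → ∀ (K : Type) [Field K] [NumberField K],
      IsMultiquadratic d K → Module.finrank ℚ K = 2 ^ n ∧ Formula K M (∏ i, d i)) ∧
    (∀ (n : ℕ) (d : Fin n → ℤ) (M : ℤ), Fam d → AdmSq M → ∀ ε : ℤ, (ε = 1 ∨ ε = -1) →
      Tendsto (prop ε fun D => GoodPair (M * (ε * D)) d) atTop (𝓝 (c ^ 2 ^ n))) ∧
    (∀ (n : ℕ) (M : ℤ) (d : Fin n → ℤ), GoodPair M d → ∀ ε : ℤ, (ε = 1 ∨ ε = -1) →
      Tendsto (prop ε fun D => GoodPair M (Fin.snoc d (ε * D) : Fin (n + 1) → ℤ)) atTop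
        (𝓝 (c ^ 2 ^ n))) ∧
    (∀ (n : ℕ) (d : Fin n → ℤ) (M : ℤ), Fam d → AdmSq M → ∀ (K : Type) [Field K] [NumberField K],
      IsMultiquadratic d K → ∀ ε : ℤ, (ε = 1 ∨ ε = -1) → ∀ δ : ℝ, 0 < δ → ∃ X₀ : ℕ, ∀ X : ℕ, X₀ ≤ X →
        c ^ 2 ^ n - δ ≤ prop ε (fun D => Formula K (M * (ε * D)) (∏ i, d i)) X) ∧
    (∀ (n : ℕ) (M : ℤ) (d : Fin n → ℤ), GoodPair M d → ∀ ε : ℤ, (ε = 1 ∨ ε = -1) →
      ∀ δ : ℝ, 0 < δ → ∃ X₀ : ℕ, ∀ X : ℕ, X₀ ≤ X → c ^ 2 ^ n - δ ≤ prop ε (fun D =>
        ∀ (K : Type) [Field K] [NumberField K],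
          IsMultiquadratic (Fin.snoc d (ε * D) : Fin (n + 1) → ℤ) K →
          Module.finrank ℚ K = 2 ^ (n + 1) ∧
          Formula K M (∏ i, (Fin.snoc d (ε * D) : Fin (n + 1) → ℤ) i)) X) ∧
    GoodPair 1 (Fin.elim0 : Fin 0 → ℤ) ∧ 0.4194 < c ∧ c < 0.4195 := by
  obtain ⟨-, h2, h3, h4, h5⟩ := parts
  refine ⟨fun n M d hd K _ _ hK => formula_of hd hK, h2, h3, ?_, ?_, ?_, h4, h5⟩
  · intro n d M hd hM K _ _ hK ε hε δ hδ
    obtain ⟨X₀, hX⟩ := low (h2 n d M hd hM ε hε) δ hδ
    exact ⟨X₀, fun X hX' => (hX X hX').trans (prop_mono (fun D hD => (formula_of hD hK).2) X)⟩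
  · intro n M d hd ε hε δ hδ
    obtain ⟨X₀, hX⟩ := low (h3 n M d hd ε hε) δ hδ
    refine ⟨X₀, fun X hX' => (hX X hX').trans (prop_mono (fun D hD => ?_) X)⟩
    intro K _ _ hK
    exact formula_of hD hK
  · refine ⟨fun T hT => ?_, fun T => ⟨1, 1, good_one, one_ne_zero, ?_⟩⟩
    · obtain ⟨i, -⟩ := hT
      exact i.elim0
    · rw [Subsingleton.elim T ∅, Finset.prod_empty]
      norm_num

end Pool.Agent.Results.MP_d4aa36_nt.ExactProportionMultiquadratic
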